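import Pool.Agent.Lib_MP_d687bf.Final

/-!
# MP_d687bf_al, Q1: infinite two-generated `p`-groups of matrices over division rings

For every odd prime `p` there is one division ring `D` such that for EVERY `n ≥ 1` two invertible
`n × n` matrices over `D` generate an infinite group in which the orders of the elements are exactly
the powers of `p` (so all elements have finite order and the orders are unbounded). The groups are
subgroups of `(Matrix (Fin n) (Fin n) D)ˣ`, which is `GL_n(D)`.
-/

set_option autoImplicit false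

open Set Filter Topology

namespace Pool.Agent.Results.MP_d687bf_al.OddTorsion

open D687

/-- In the free pro-`p` group a closed subgroup which contains `x ^ m`, `m` prime to `p`, contains
`x`. -/
private theorem mem_of_pow_mem {p : ℕ} [Fact p.Prime] (R : Subgroup (FF p))
    (hR : IsClosed (R : Set (FF p))) (x : FF p) (m : ℕ) (hm : Nat.Coprime m p)
    (h : x ^ m ∈ R) : x ∈ R := by
  by_contra hx
  have hO : IsOpen {y : FF p | x * y ∉ R} :=
    (hR.isOpen_compl).preimage (continuous_const.mul continuous_id)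
  obtain ⟨N, hN, hNo, hNs⟩ := exists_normal_sub {y : FF p | x * y ∉ R} hO (by
    change x * 1 ∉ R
    rwa [mul_one])
  obtain ⟨n, hn⟩ := index_open N hNo
  have h1 : x ^ p ^ n ∈ N := by
    rw [← hn]
    exact N.pow_index_mem x
  have hc : IsCoprime (m : ℤ) ((p ^ n : ℕ) : ℤ) :=
    Nat.isCoprime_iff_coprime.2 (Nat.Coprime.pow_right n hm)
  obtain ⟨a, b, hab⟩ := hc
  have h2 : x ^ ((p ^ n : ℕ) * (-b) : ℤ) ∈ N := by
    rw [zpow_mul, zpow_natCast]
    exact N.zpow_mem h1 _
  have h3 : x * x ^ ((p ^ n : ℕ) * (-b) : ℤ) ∈ R := by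
    have h4 : x * x ^ ((p ^ n : ℕ) * (-b) : ℤ) = (x ^ m) ^ a := by
      rw [← zpow_natCast x m, ← zpow_mul, ← zpow_one_add]
      congr 1
      linarith
    rw [h4]
    exact R.zpow_mem h _
  exact hNs h2 h3

/-- The group in the units of a division ring. -/
private theorem exists_rep (p : ℕ) [Fact p.Prime] (h2 : p ≠ 2) :
    ∃ (E : Type) (_ : DivisionRing E) (ρ : Fr →* Eˣ),
      (∀ w, ∃ k : ℕ, ρ w ^ p ^ k = 1) ∧
      (∀ B : ℕ, ∃ w, ∀ m : ℕ, 0 < m → ρ w ^ m = 1 → B ≤ m) := by
  have H : Facts p := facts_of_snoc h2 fun D hD ω hinf hprim => BR_snoc h2 D hD ω hinf hprim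
  obtain ⟨D, hBR, hE, hfin, hbig, k0, hk0⟩ := iteration H
  have hst := fun N : ℕ => stage H (D (N + k0)) (hBR _) ((hE k0 (N + k0) (by omega)).pos hk0)
  choose E hEd ρ hρ V hV hρV using hst
  obtain ⟨E', hE', ρ', h1, h2'⟩ := exists_ultra E ρ
  refine ⟨E', hE', ρ', ?_, ?_⟩
  · intro w
    obtain ⟨e, he, k, hk⟩ := hfin w
    obtain ⟨a, m, hm, hem⟩ := Nat.exists_eq_pow_mul_and_not_dvd he.ne' p
      (Fact.out : p.Prime).ne_one
    have hcop : Nat.Coprime m p := ((Nat.Prime.coprime_iff_not_dvd Fact.out).2 hm).symm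
    have hk2 : (io p w) ^ p ^ a ∈ (D k).R := by
      refine mem_of_pow_mem (D k).R (Subgroup.isClosed_topologicalClosure _) _ m hcop ?_
      rw [← pow_mul, ← hem]
      exact hk
    refine ⟨a + 1, ?_⟩
    rw [← map_pow]
    apply h1
    filter_upwards [eventually_ge_atTop k] with N hN
    rw [pow_succ, pow_mul, map_pow]
    apply hρ
    rw [map_pow]
    exact (hE k (N + k0) (by omega)).R_le hk2
  · intro B
    obtain ⟨w, k, hw⟩ := hbig B
    refine ⟨w, fun m hm hwm => ?_⟩
    rw [← map_pow] at hwm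
    obtain ⟨N, hN, hN'⟩ : ∃ N, k ≤ N ∧ ρ N (w ^ m) = 1 := by
      by_contra hcon
      push Not at hcon
      refine h2' (w ^ m) ?_ hwm
      filter_upwards [eventually_ge_atTop k] with N hN
      exact hcon N hN
    have h3 := hρV N _ hN'
    rw [map_pow] at h3
    exact (hE k (N + k0) (by omega)).big hw (V N) (hV N) m hm h3

/-- Scalar matrices: `Dˣ → GL_n(D)`. -/
private noncomputable def sc (D : Type) [DivisionRing D] (n : ℕ) :
    Dˣ →* (Matrix (Fin n) (Fin n) D)ˣ :=
  Units.map (Matrix.scalar (Fin n) : D →+* Matrix (Fin n) (Fin n) D).toMonoidHom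

private theorem sc_inj (D : Type) [DivisionRing D] {n : ℕ} (hn : 0 < n) :
    Function.Injective (sc D n) := by
  have : Nonempty (Fin n) := ⟨⟨0, hn⟩⟩
  refine Units.map_injective ?_
  intro a b h
  have h1 := congrFun (congrFun h ⟨0, hn⟩) ⟨0, hn⟩
  simpa using h1

/-- **Q1, negated form, for every odd prime `p` and every `n`.** For every odd prime `p` there is a
division ring `D` such that for every `n ≥ 1` there are two invertible `n × n` matrices `x, y` over
`D` with: the order of every element of the group generated by `x` and `y` is a power of `p`; every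
power of `p` is the order of an element of this group; and this group is infinite. -/
theorem result (p : ℕ) (hp : p.Prime) (h2 : p ≠ 2) :
    ∃ (D : Type) (_ : DivisionRing D), ∀ n : ℕ, 0 < n →
      ∃ x y : (Matrix (Fin n) (Fin n) D)ˣ,
        (∀ g ∈ Subgroup.closure {x, y}, ∃ k : ℕ, orderOf g = p ^ k) ∧
        (∀ k : ℕ, ∃ g ∈ Subgroup.closure {x, y}, orderOf g = p ^ k) ∧
        (Subgroup.closure {x, y} : Set (Matrix (Fin n) (Fin n) D)ˣ).Infinite := by
  have : Fact p.Prime := ⟨hp⟩
  obtain ⟨E, hE, ρ, h1, h3⟩ := exists_rep p h2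
  refine ⟨E, hE, fun n hn => ?_⟩
  let ψ : Fr →* (Matrix (Fin n) (Fin n) E)ˣ := (sc E n).comp ρ
  have hrange : Subgroup.closure {ψ (FreeGroup.of 0), ψ (FreeGroup.of 1)} = ψ.range := by
    apply le_antisymm
    · rw [Subgroup.closure_le]
      rintro g (rfl | rfl)
      · exact ⟨_, rfl⟩
      · exact ⟨_, rfl⟩
    · rintro _ ⟨w, rfl⟩
      induction w using FreeGroup.induction_on with
      | C1 => rw [map_one]; exact Subgroup.one_mem _
      | of i =>
        apply Subgroup.subset_closure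
        fin_cases i
        · exact Or.inl rfl
        · exact Or.inr rfl
      | inv_of i ih => rw [map_inv]; exact Subgroup.inv_mem _ ih
      | mul x y hx hy => rw [map_mul]; exact Subgroup.mul_mem _ hx hy
  have hord : ∀ g ∈ ψ.range, ∃ k : ℕ, orderOf g = p ^ k := by
    rintro _ ⟨w, rfl⟩
    obtain ⟨k, hk⟩ := h1 w
    have h4 : ψ w ^ p ^ k = 1 := by
      change (sc E n (ρ w)) ^ p ^ k = 1
      rw [← map_pow, hk, map_one]
    obtain ⟨j, -, hj⟩ := (Nat.dvd_prime_pow hp).1 (orderOf_dvd_of_pow_eq_one h4)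
    exact ⟨j, hj⟩
  have hall : ∀ k : ℕ, ∃ g ∈ ψ.range, orderOf g = p ^ k := by
    intro k
    obtain ⟨w, hw⟩ := h3 (p ^ k + 1)
    obtain ⟨j, hj⟩ := hord (ψ w) ⟨w, rfl⟩
    have h5 : ρ w ^ p ^ j = 1 := by
      apply sc_inj E hn
      rw [map_pow, map_one]
      change ψ w ^ p ^ j = 1
      rw [← hj]
      exact pow_orderOf_eq_one _
    have h6 := hw (p ^ j) (pow_pos hp.pos j) h5
    have h7 : k ≤ j := by
      by_contra hlt
      have := Nat.pow_le_pow_right hp.pos (le_of_lt (not_le.1 hlt))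
      omega
    have h8 : p ^ k ∣ orderOf (ψ w) := by
      rw [hj]
      exact pow_dvd_pow p h7
    refine ⟨ψ w ^ (orderOf (ψ w) / p ^ k), ⟨w ^ (orderOf (ψ w) / p ^ k), map_pow _ _ _⟩, ?_⟩
    exact orderOf_pow_orderOf_div (by rw [hj]; exact (pow_pos hp.pos j).ne') h8
  refine ⟨ψ (FreeGroup.of 0), ψ (FreeGroup.of 1), ?_, ?_, ?_⟩
  · rw [hrange]
    exact hord
  · rw [hrange]
    exact hall
  · rw [hrange]
    intro hf
    have : Finite ψ.range := hf
    obtain ⟨g, hg, hgo⟩ := hall (Nat.card ψ.range)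
    have h9 : orderOf (⟨g, hg⟩ : ψ.range) = p ^ Nat.card ψ.range := by
      rw [← hgo]
      exact Subgroup.orderOf_mk g hg
    have h10 := orderOf_le_card (x := (⟨g, hg⟩ : ψ.range))
    rw [h9] at h10
    have h11 := Nat.lt_pow_self hp.one_lt (n := Nat.card ψ.range)
    omega

end Pool.Agent.Results.MP_d687bf_al.OddTorsion
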